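import Pool.Agent.Helper876.Goddyn.Defs
import Pool.Agent.Helper310.Contra.Main

/-!
# Circuits as cyclic permutations; circuits minus a vertex are connected
-/

set_option autoImplicit false

namespace Goddyn

variable {V : Type*} {H : SimpleGraph V}

/-- The graph `G` with all edges at `z` removed. -/
def without (G : SimpleGraph V) (z : V) : SimpleGraph V where
  Adj a b := G.Adj a b ∧ a ≠ z ∧ b ≠ z
  symm := ⟨fun _ _ h => ⟨h.1.symm, h.2.2, h.2.1⟩⟩
  loopless := ⟨fun _ h => h.1.ne rfl⟩

lemma circuit_perm [Finite V] {C : H.Subgraph} (hC : IsCircuit C) :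
    ∃ s : Equiv.Perm C.verts, (∀ x y, ∃ k : ℕ, (s ^ k) x = y) ∧ (∀ x, s (s x) ≠ x) ∧
      ∀ x y : C.verts, C.Adj x y ↔ (s x = y ∨ s y = x) :=
  Contra.circuit_perm (G := H) hC

/-- Two vertices of a circuit other than `z` are joined inside the circuit minus `z`. -/
lemma circuit_without [Finite V] {C : H.Subgraph} (hC : IsCircuit C) (G : SimpleGraph V)
    (hG : ∀ a b, C.Adj a b → G.Adj a b) (z x y : V)
    (hx : x ∈ C.verts) (hy : y ∈ C.verts) (hxz : x ≠ z) (hyz : y ≠ z) :
    (without G z).Reachable x y := by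
  classical
  obtain ⟨s, hs, -, hadj⟩ := circuit_perm hC
  have hstep : ∀ u : C.verts, G.Adj u (s u) := fun u => hG _ _ ((hadj u (s u)).2 (Or.inl rfl))
  by_cases hz : z ∈ C.verts
  · have key : ∀ w (hw : w ∈ C.verts), w ≠ z →
        (without G z).Reachable (s ⟨z, hz⟩ : C.verts) w := by
      intro w hw hwz
      have hex := hs ⟨z, hz⟩ ⟨w, hw⟩
      set k := Nat.find hex with hk
      have hk1 : (s ^ k) ⟨z, hz⟩ = ⟨w, hw⟩ := Nat.find_spec hex
      have hmin : ∀ j < k, (s ^ j) ⟨z, hz⟩ ≠ ⟨w, hw⟩ := fun j hj => Nat.find_min hex hj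
      have hk0 : k ≠ 0 := by
        intro h0
        rw [h0] at hk1
        exact hwz (by simpa using (congrArg Subtype.val hk1).symm)
      have hnz : ∀ j, 1 ≤ j → j ≤ k → ((s ^ j) ⟨z, hz⟩ : C.verts) ≠ ⟨z, hz⟩ := by
        intro j h1 h2 h3
        apply hmin (k - j) (by omega)
        rw [← hk1]
        conv_rhs => rw [show k = (k - j) + j by omega, pow_add, Equiv.Perm.mul_apply, h3]
      have hreach : ∀ j, j + 1 ≤ k → (without G z).Reachable (s ⟨z, hz⟩ : C.verts)
          ((s ^ (j + 1)) ⟨z, hz⟩ : C.verts) := by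
        intro j
        induction j with
        | zero => intro _; rw [zero_add, pow_one]
        | succ j ih =>
          intro hj
          refine (ih (by omega)).trans (SimpleGraph.Adj.reachable ?_)
          rw [pow_succ' s (j + 1), Equiv.Perm.mul_apply]
          refine ⟨hstep _, ?_, ?_⟩
          · intro h
            exact hnz (j + 1) (by omega) (by omega) (Subtype.ext h)
          · intro h
            apply hnz (j + 2) (by omega) (by omega)
            apply Subtype.ext
            rw [pow_succ' s (j + 1), Equiv.Perm.mul_apply]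
            exact h
      have := hreach (k - 1) (by omega)
      rw [Nat.sub_add_cancel (by omega), hk1] at this
      exact this
    exact (key x hx hxz).symm.trans (key y hy hyz)
  · obtain ⟨k, hk⟩ := hs ⟨x, hx⟩ ⟨y, hy⟩
    have : ∀ j, (without G z).Reachable x ((s ^ j) ⟨x, hx⟩ : C.verts) := by
      intro j
      induction j with
      | zero => rw [pow_zero]; exact SimpleGraph.Reachable.refl _
      | succ j ih =>
        refine ih.trans (SimpleGraph.Adj.reachable ?_)
        rw [pow_succ', Equiv.Perm.mul_apply]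
        exact ⟨hstep _, fun h => hz (h ▸ Subtype.prop _), fun h => hz (h ▸ Subtype.prop _)⟩
    have h2 := this k
    rw [hk] at h2
    exact h2

lemma three_le_circuit [Finite V] {C : H.Subgraph} (hC : IsCircuit C) : 3 ≤ C.verts.ncard := by
  obtain ⟨v, hv⟩ := hC.1.nonempty
  obtain ⟨a, b, hab, hset⟩ := Set.ncard_eq_two.1 (hC.2 v hv)
  have ha : C.Adj v a := by
    have : a ∈ C.neighborSet v := by rw [hset]; simp
    exact this
  have hb : C.Adj v b := by
    have : b ∈ C.neighborSet v := by rw [hset]; simp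
    exact this
  have hsub : ({v, a, b} : Set V) ⊆ C.verts := by
    rintro w (rfl | rfl | rfl)
    · exact hv
    · exact ha.snd_mem
    · exact hb.snd_mem
  have h3 : ({v, a, b} : Set V).ncard = 3 := by
    rw [Set.ncard_eq_three]
    exact ⟨v, a, b, ha.ne, hb.ne, hab, rfl⟩
  have := Set.ncard_le_ncard hsub (Set.toFinite _)
  omega

end Goddyn
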