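import Pool.Agent.Helper876.Goddyn.Family
import Pool.Agent.Helper310.Contra.Eval

/-!
# Decompositions into alternating circuits when `|V|` is not `1 (mod 4)`
-/

set_option autoImplicit false

namespace Goddyn

variable {V : Type*} {H : SimpleGraph V} {C₁ C₂ : H.Subgraph}

/-- The successor permutation of a Hamilton circuit. -/
lemma hamilton_perm [Finite V] {C : H.Subgraph} (hC : IsHamiltonCircuit C) :
    ∃ s : Equiv.Perm V, (∀ x y, ∃ k : ℕ, (s ^ k) x = y) ∧ (∀ x, s (s x) ≠ x) ∧
      ∀ x y, C.Adj x y ↔ (s x = y ∨ s y = x) := by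
  have hcon : C.spanningCoe.Connected := by
    have h1 : C.IsSpanning := hC.2
    exact (C.spanningCoeEquivCoeOfSpanning h1).connected_iff.2 hC.1.1.coe
  have h2 : ∀ v, (C.spanningCoe.neighborSet v).ncard = 2 := fun v => hC.1.2 v (hC.2 v)
  exact Contra.exists_cyclic_perm C.spanningCoe hcon h2

/-- The colour class `x` of a colouring of the edges. -/
def cls (σ : Bool → Equiv.Perm V) (hσ : ∀ i x, σ i (σ i x) ≠ x) (f : Bool → V → ZMod 6)
    (x : ZMod 6) : SimpleGraph V where
  Adj a b := ∃ i, (σ i a = b ∧ f i a = x) ∨ (σ i b = a ∧ f i b = x)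
  symm := ⟨fun _ _ ⟨i, hi⟩ => ⟨i, hi.symm⟩⟩
  loopless := ⟨fun a ⟨i, hi⟩ => by
    have : σ i a = a := by tauto
    exact hσ i a (by rw [this, this])⟩

/-- A component of a graph `K ≤ H` as a subgraph of `H`. -/
def compSub {K : SimpleGraph V} (hle : K ≤ H) (c : K.ConnectedComponent) : H.Subgraph where
  verts := c.supp
  Adj a b := K.Adj a b ∧ a ∈ c.supp
  adj_sub := fun hab => hle hab.1
  edge_vert := fun hab => hab.2
  symm := ⟨fun a b hab => ⟨hab.1.symm, by
    have h1 := hab.2
    rw [SimpleGraph.ConnectedComponent.mem_supp_iff] at h1 ⊢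
    rw [← h1]
    exact SimpleGraph.ConnectedComponent.sound hab.1.symm.reachable⟩⟩

lemma compSub_connected {K : SimpleGraph V} (hle : K ≤ H) (c : K.ConnectedComponent) :
    (compSub hle c).Connected := by
  constructor
  have h1 := c.connected_toSimpleGraph
  have h2 : (compSub hle c).coe = c.toSimpleGraph := by
    ext a b
    constructor
    · intro hab
      exact hab.1
    · intro hab
      exact ⟨hab, a.2⟩
  rw [h2]
  exact h1

theorem exists_decomposition [Finite V] (h : IsHamiltonPair H C₁ C₂) [Nonempty V]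
    (hn : Nat.card V % 4 ≠ 1) : HasAlternatingDecomposition H C₁ C₂ := by
  classical
  have : Fintype V := Fintype.ofFinite V
  obtain ⟨s₁, hs₁, hs₁', hs₁''⟩ := hamilton_perm h.ham₁
  obtain ⟨s₂, hs₂, hs₂', hs₂''⟩ := hamilton_perm h.ham₂
  let σ : Bool → Equiv.Perm V := fun i => if i = true then s₁ else s₂
  have hσ : ∀ i x y, ∃ k : ℕ, (σ i ^ k) x = y := by
    intro i; cases i
    · exact hs₂
    · exact hs₁
  have hσ2 : ∀ i v, σ i (σ i v) ≠ v := by
    intro i; cases i
    · exact hs₂'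
    · exact hs₁'
  obtain ⟨f, hf1, hf2⟩ := Contra.exists_colouring σ hσ (by rwa [← Nat.card_eq_fintype_card])
  let C : Bool → H.Subgraph := fun i => if i = true then C₁ else C₂
  have hC : ∀ i a b, (C i).Adj a b ↔ (σ i a = b ∨ σ i b = a) := by
    intro i; cases i
    · exact hs₂''
    · exact hs₁''
  have hCne : ∀ i j a b, (C i).Adj a b → (C j).Adj a b → i = j := by
    intro i j a b h1 h2
    cases i <;> cases j
    · rfl
    · exact (h.not_both h2 h1).elim
    · exact (h.not_both h1 h2).elim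
    · rfl
  let K : ZMod 6 → SimpleGraph V := cls σ hσ2 f
  have hK : ∀ x a b, (K x).Adj a b ↔ ∃ i, (σ i a = b ∧ f i a = x) ∨ (σ i b = a ∧ f i b = x) :=
    fun x a b => Iff.rfl
  have hKC : ∀ x a b, (K x).Adj a b → ∃ i, (C i).Adj a b := by
    rintro x a b ⟨i, hi⟩
    refine ⟨i, (hC i a b).2 ?_⟩
    tauto
  have hle : ∀ x, K x ≤ H := by
    intro x a b hab
    obtain ⟨i, hi⟩ := hKC x a b hab
    exact hi.adj_sub
  -- for every colour at `v` and every `i` there is exactly one neighbour along `C i`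
  have hone : ∀ x v, (∃ i, f i v = x ∨ f i ((σ i).symm v) = x) → ∀ i, ∃ a, ∀ b,
      ((σ i v = b ∧ f i v = x) ∨ (σ i b = v ∧ f i b = x)) ↔ b = a := by
    intro x v hx i
    have hxi : f i v = x ∨ f i ((σ i).symm v) = x := by
      obtain ⟨j, hj⟩ := hx
      have h2 := hf2 v
      cases i <;> cases j
      · exact hj
      · rcases h2 with ⟨h3, h4⟩ | ⟨h3, h4⟩
        · rw [h3, h4] at hj; exact hj
        · rw [h3, h4] at hj; exact hj.symm
      · rcases h2 with ⟨h3, h4⟩ | ⟨h3, h4⟩
        · rw [h3, h4]; exact hj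
        · rw [h3, h4]; exact hj.symm
      · exact hj
    rcases hxi with hc | hc
    · refine ⟨σ i v, fun b => ⟨?_, ?_⟩⟩
      · rintro (⟨h1, -⟩ | ⟨h1, h2⟩)
        · exact h1.symm
        · exfalso
          apply hf1 i v
          rw [hc, ← h1]; simpa using h2
      · rintro rfl; exact Or.inl ⟨rfl, hc⟩
    · refine ⟨(σ i).symm v, fun b => ⟨?_, ?_⟩⟩
      · rintro (⟨h1, h2⟩ | ⟨h1, h2⟩)
        · exfalso
          apply hf1 i v
          rw [hc, h2]
        · rw [← h1]; simp
      · rintro rfl; exact Or.inr ⟨by simp, hc⟩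
  have hat : ∀ x v, ((K x).neighborSet v).Nonempty → ∃ i, f i v = x ∨ f i ((σ i).symm v) = x := by
    rintro x v ⟨b, i, h1 | h1⟩
    · exact ⟨i, Or.inl h1.2⟩
    · refine ⟨i, Or.inr ?_⟩
      rw [← h1.1]; simpa using h1.2
  have hnb : ∀ x v, ((K x).neighborSet v).Nonempty → ∃ a b, C₁.Adj v a ∧ C₂.Adj v b ∧
      ∀ c, (K x).Adj v c ↔ c = a ∨ c = b := by
    intro x v hne
    have h1 := hone x v (hat x v hne)
    obtain ⟨a, ha⟩ := h1 true
    obtain ⟨b, hb⟩ := h1 false
    have ha1 : C₁.Adj v a := (hC true v a).2 (by have := (ha a).2 rfl; tauto)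
    have hb1 : C₂.Adj v b := (hC false v b).2 (by have := (hb b).2 rfl; tauto)
    refine ⟨a, b, ha1, hb1, fun c => ?_⟩
    rw [hK, ← ha c, ← hb c]
    constructor
    · rintro ⟨i, hi⟩
      cases i
      · exact Or.inr hi
      · exact Or.inl hi
    · rintro (hi | hi)
      · exact ⟨true, hi⟩
      · exact ⟨false, hi⟩
  -- non-trivial components
  have hcomp : ∀ x (c : (K x).ConnectedComponent) (a : V), a ∈ c.supp →
      ((K x).neighborSet a).Nonempty → IsAlternating C₁ C₂ (compSub (hle x) c) := by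
    intro x c a ha hane
    have hall : ∀ v ∈ c.supp, ((K x).neighborSet v).Nonempty := by
      intro v hv
      rw [SimpleGraph.ConnectedComponent.mem_supp_iff] at ha hv
      have hr : (K x).Reachable a v :=
        SimpleGraph.ConnectedComponent.exact (ha.trans hv.symm)
      obtain ⟨b, hb⟩ := hane
      exact Contra.reach_nonempty (H := K x) hb hr
    have hnset : ∀ v ∈ c.supp, ∀ w, (compSub (hle x) c).Adj v w ↔ (K x).Adj v w :=
      fun v hv w => ⟨fun hw => hw.1, fun hw => ⟨hw, hv⟩⟩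
    refine ⟨⟨compSub_connected (hle x) c, ?_⟩, ?_⟩
    · intro v hv
      obtain ⟨p, q, hp, hq, hpq⟩ := hnb x v (hall v hv)
      have : (compSub (hle x) c).neighborSet v = {p, q} := by
        ext w
        rw [SimpleGraph.Subgraph.mem_neighborSet, hnset v hv, hpq]
        simp
      rw [this]
      apply Set.ncard_pair
      rintro rfl
      exact h.not_both hp hq
    · intro v a b hva hvb hab
      have hv : v ∈ c.supp := hva.2
      obtain ⟨p, q, hp, hq, hpq⟩ := hnb x v (hall v hv)
      rw [hnset v hv, hpq] at hva hvb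
      rcases hva with rfl | rfl <;> rcases hvb with rfl | rfl
      · exact absurd rfl hab
      · exact Or.inl ⟨hp, hq⟩
      · exact Or.inr ⟨hq, hp⟩
      · exact absurd rfl hab
  let ι := Σ x : ZMod 6, {c : (K x).ConnectedComponent //
    ∃ a ∈ c.supp, ((K x).neighborSet a).Nonempty}
  have hfin : ∀ x, Finite (K x).ConnectedComponent := fun x => inferInstanceAs (Finite (Quot _))
  have : Finite ι := inferInstance
  have : Fintype ι := Fintype.ofFinite ι
  let Φ : ι → H.Subgraph := fun i => compSub (hle i.1) i.2.1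
  refine ⟨Fintype.card ι, fun k => Φ ((Fintype.equivFin ι).symm k), fun k => ?_, ?_⟩
  · obtain ⟨a, ha, hane⟩ := ((Fintype.equivFin ι).symm k).2.2
    exact hcomp _ _ a ha hane
  · intro e he
    induction e using Sym2.ind with
    | _ a b =>
    have hab : H.Adj a b := he
    have hone' : ∃! i : ι, (Φ i).Adj a b := by
      obtain ⟨i, hi⟩ : ∃ i, (C i).Adj a b := by
        rcases h.adj_iff.1 hab with h1 | h1
        · exact ⟨true, h1⟩
        · exact ⟨false, h1⟩
      obtain ⟨x, hx⟩ : ∃ x, (σ i a = b ∧ f i a = x) ∨ (σ i b = a ∧ f i b = x) := by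
        rcases (hC i a b).1 hi with h1 | h1
        · exact ⟨_, Or.inl ⟨h1, rfl⟩⟩
        · exact ⟨_, Or.inr ⟨h1, rfl⟩⟩
      have hKx : (K x).Adj a b := ⟨i, hx⟩
      refine ⟨⟨x, (K x).connectedComponentMk a, a, rfl, ⟨b, hKx⟩⟩, ⟨hKx, rfl⟩, ?_⟩
      rintro ⟨y, c, hc⟩ ⟨⟨j, hj⟩, hy⟩
      have hCj : (C j).Adj a b := (hC j a b).2 (by tauto)
      obtain rfl := hCne i j a b hi hCj
      have hxy : y = x := by
        rcases hx with ⟨h1, h2⟩ | ⟨h1, h2⟩ <;> rcases hj with ⟨h3, h4⟩ | ⟨h3, h4⟩
        · exact h4.symm.trans h2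
        · exact absurd (by rw [h1, h3]) (hσ2 i a)
        · exact absurd (by rw [h3, h1]) (hσ2 i a)
        · exact h4.symm.trans h2
      subst hxy
      have hy' : (K y).connectedComponentMk a = c := hy
      subst hy'
      rfl
    obtain ⟨i, hi, hiu⟩ := hone'
    refine ⟨Fintype.equivFin ι i, ?_, ?_⟩
    · show s(a, b) ∈ (Φ ((Fintype.equivFin ι).symm (Fintype.equivFin ι i))).edgeSet
      rw [Equiv.symm_apply_apply]
      exact hi
    · intro k hk
      rw [← hiu _ hk, Equiv.apply_symm_apply]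

end Goddyn
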