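import Mathlib

/-!
# Alternating circuits in the union of two Hamilton circuits: definitions
-/

set_option autoImplicit false

namespace Goddyn

variable {V : Type*}

/-- A circuit: a connected 2-regular subgraph. -/
def IsCircuit {H : SimpleGraph V} (C : H.Subgraph) : Prop :=
  C.Connected ∧ ∀ v ∈ C.verts, (C.neighborSet v).ncard = 2

/-- A Hamilton circuit of `H`: a circuit through every vertex of `H`. -/
def IsHamiltonCircuit {H : SimpleGraph V} (C : H.Subgraph) : Prop :=
  IsCircuit C ∧ ∀ v, v ∈ C.verts

/-- `H` is a 4-regular graph whose edge set is the disjoint union of the edge sets of the two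
Hamilton circuits `C₁` and `C₂`. -/
structure IsHamiltonPair (H : SimpleGraph V) (C₁ C₂ : H.Subgraph) : Prop where
  regular : ∀ v, (H.neighborSet v).ncard = 4
  ham₁ : IsHamiltonCircuit C₁
  ham₂ : IsHamiltonCircuit C₂
  disjoint : Disjoint C₁.edgeSet C₂.edgeSet
  union : C₁.edgeSet ∪ C₂.edgeSet = H.edgeSet

/-- The circuit `D` is alternating with respect to `C₁`, `C₂`: any two different edges of `D`
with a common end lie in different members of `{C₁, C₂}`. -/
def IsAlternating {H : SimpleGraph V} (C₁ C₂ D : H.Subgraph) : Prop :=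
  IsCircuit D ∧ ∀ v a b, D.Adj v a → D.Adj v b → a ≠ b →
    (C₁.Adj v a ∧ C₂.Adj v b) ∨ (C₂.Adj v a ∧ C₁.Adj v b)

/-- `z` is a cut-vertex of `G`: deleting `z` increases the number of connected components. -/
def IsCutVertex (G : SimpleGraph V) (z : V) : Prop :=
  Nat.card G.ConnectedComponent < Nat.card (G.induce {z}ᶜ).ConnectedComponent

/-- `H` is 3-connected: it has at least four vertices, and deleting at most two vertices leaves
a connected graph. -/
def IsThreeConnected (H : SimpleGraph V) : Prop :=
  4 ≤ Nat.card V ∧ ∀ S : Set V, S.ncard ≤ 2 → (H.induce Sᶜ).Connected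

/-- `H` has a decomposition into circuits that are alternating with respect to `C₁`, `C₂`. -/
def HasAlternatingDecomposition (H : SimpleGraph V) (C₁ C₂ : H.Subgraph) : Prop :=
  ∃ (k : ℕ) (F : Fin k → H.Subgraph), (∀ j, IsAlternating C₁ C₂ (F j)) ∧
    ∀ e ∈ H.edgeSet, ∃! j, e ∈ (F j).edgeSet

end Goddyn
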