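import Mathlib

/-!
# Fragments
-/

set_option autoImplicit false

namespace Goddyn

variable {V ι : Type*}

/-- The vertices lying both in a member of `S` and in a member of `T`. -/
def meet (B : ι → Set V) (S T : Set ι) : Set V :=
  {v | (∃ s ∈ S, v ∈ B s) ∧ ∃ t ∈ T, v ∈ B t}

lemma meet_comm (B : ι → Set V) (S T : Set ι) : meet B S T = meet B T S := by
  ext v; exact and_comm

/-- `i` is a bad member with sides `S` and `T`. -/
def Bad (B : ι → Set V) (i : ι) (S T : Set ι) : Prop :=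
  S.Nonempty ∧ T.Nonempty ∧ Disjoint S T ∧ i ∉ S ∧ i ∉ T ∧ (∀ j, j = i ∨ j ∈ S ∨ j ∈ T) ∧
    (meet B S T).ncard = 1

lemma Bad.symm {B : ι → Set V} {i : ι} {S T : Set ι} (h : Bad B i S T) : Bad B i T S := by
  obtain ⟨h1, h2, h3, h4, h5, h6, h7⟩ := h
  exact ⟨h2, h1, h3.symm, h5, h4, fun j => (h6 j).imp_right Or.symm, by rw [meet_comm]; exact h7⟩

/-- The fragment lemma. -/
theorem exists_good [Finite V] [Finite ι] [Nonempty ι] (B : ι → Set V)
    (conn : ∀ S : Set ι, S.Nonempty → Sᶜ.Nonempty → 3 ≤ (meet B S Sᶜ).ncard) :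
    ∃ i, ∀ S T, ¬ Bad B i S T := by
  by_contra hall
  push Not at hall
  have key : ∀ n : ℕ, ∀ i S T, Bad B i S T → S.ncard = n → False := by
    intro n
    induction n using Nat.strong_induction_on with
    | _ n ih =>
    intro i S T hST hn
    obtain ⟨y, hy⟩ := hST.1
    obtain ⟨A, C, hAC, hiC⟩ : ∃ A C, Bad B y A C ∧ i ∈ C := by
      obtain ⟨A, C, hAC⟩ := hall y
      rcases hAC.2.2.2.2.2.1 i with h | h | h
      · exact absurd (h ▸ hy) hST.2.2.2.1
      · exact ⟨C, A, hAC.symm, h⟩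
      · exact ⟨A, C, hAC, h⟩
    obtain ⟨-, hTne, hdST, hiS, hiT, hcov, hm⟩ := hST
    obtain ⟨hAne, hCne, hdAC, hyA, hyC, hcov', hm'⟩ := id hAC
    by_cases hAT : (A ∩ T).Nonempty
    · have h3 := conn (A ∩ T) hAT ⟨i, fun h => hiT h.2⟩
      have hsub : meet B (A ∩ T) (A ∩ T)ᶜ ⊆ meet B S T ∪ meet B A C := by
        rintro v ⟨⟨s, hs, hvs⟩, t, ht, hvt⟩
        rcases hcov t with h | h | h
        · right; exact ⟨⟨s, hs.1, hvs⟩, t, h ▸ hiC, hvt⟩
        · left; exact ⟨⟨t, h, hvt⟩, s, hs.2, hvs⟩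
        · rcases hcov' t with h' | h' | h'
          · exact absurd h (h' ▸ Set.disjoint_left.1 hdST hy)
          · exact absurd ⟨h', h⟩ ht
          · right; exact ⟨⟨s, hs.1, hvs⟩, t, h', hvt⟩
      have h4 := Set.ncard_le_ncard hsub (Set.toFinite _)
      have h5 := Set.ncard_union_le (meet B S T) (meet B A C)
      omega
    · have hAS : A ⊆ S \ {y} := by
        intro a ha
        rcases hcov a with h | h | h
        · exact absurd (h ▸ hiC) (Set.disjoint_left.1 hdAC ha)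
        · exact ⟨h, fun h' => hyA (h' ▸ ha)⟩
        · exact absurd ⟨a, ha, h⟩ hAT
      have h4 := Set.ncard_le_ncard hAS (Set.toFinite _)
      have h5 : (S \ {y}).ncard < S.ncard := by
        apply Set.ncard_lt_ncard _ (Set.toFinite _)
        refine ⟨Set.sdiff_subset, fun h => (h hy).2 rfl⟩
      exact ih A.ncard (by omega) y A C hAC rfl
  obtain ⟨i⟩ := ‹Nonempty ι›
  obtain ⟨S, T, hST⟩ := hall i
  exact key _ i S T hST rfl

end Goddyn
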