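import Pool.Agent.Helper876.Goddyn.Circ
import Pool.Agent.Helper876.Goddyn.Frag

/-!
# From a decomposition into alternating circuits to a removable one
-/

set_option autoImplicit false

namespace Goddyn

variable {V ι : Type*} {H : SimpleGraph V} {C₁ C₂ : H.Subgraph}

lemma IsHamiltonPair.not_both (h : IsHamiltonPair H C₁ C₂) {u v : V} (h1 : C₁.Adj u v)
    (h2 : C₂.Adj u v) : False := by
  have h3 : s(u, v) ∈ C₁.edgeSet := h1
  have h4 : s(u, v) ∈ C₂.edgeSet := h2
  exact Set.disjoint_left.1 h.disjoint h3 h4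

lemma IsHamiltonPair.adj_iff (h : IsHamiltonPair H C₁ C₂) {u v : V} :
    H.Adj u v ↔ C₁.Adj u v ∨ C₂.Adj u v := by
  have := congrArg (fun s => s(u, v) ∈ s) h.union
  simp only [Set.mem_union, SimpleGraph.Subgraph.mem_edgeSet, SimpleGraph.mem_edgeSet] at this
  rw [this]

variable {F : ι → H.Subgraph}

/-- A member of the family at `v` contains exactly one edge of `C₁` at `v`. -/
lemma exists_adj₁ (hF : ∀ j, IsAlternating C₁ C₂ (F j)) {j : ι} {v : V} (hv : v ∈ (F j).verts) :
    ∃ a, (F j).Adj v a ∧ C₁.Adj v a := by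
  obtain ⟨a, b, hab, hset⟩ := Set.ncard_eq_two.1 ((hF j).1.2 v hv)
  have ha : (F j).Adj v a := by
    have : a ∈ (F j).neighborSet v := by rw [hset]; simp
    exact this
  have hb : (F j).Adj v b := by
    have : b ∈ (F j).neighborSet v := by rw [hset]; simp
    exact this
  rcases (hF j).2 v a b ha hb hab with ⟨h1, -⟩ | ⟨-, h2⟩
  · exact ⟨a, ha, h1⟩
  · exact ⟨b, hb, h2⟩

/-- Every vertex lies in exactly two members. -/
lemma two_members (h : IsHamiltonPair H C₁ C₂) (hF : ∀ j, IsAlternating C₁ C₂ (F j))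
    (hu : ∀ u v, H.Adj u v → ∃! j, (F j).Adj u v) (v : V) :
    ∃ p q, p ≠ q ∧ ∀ j, v ∈ (F j).verts ↔ j = p ∨ j = q := by
  obtain ⟨a, b, hab, hset⟩ := Set.ncard_eq_two.1 (h.ham₁.1.2 v (h.ham₁.2 v))
  have ha : C₁.Adj v a := by
    have : a ∈ C₁.neighborSet v := by rw [hset]; simp
    exact this
  have hb : C₁.Adj v b := by
    have : b ∈ C₁.neighborSet v := by rw [hset]; simp
    exact this
  have honly : ∀ c, C₁.Adj v c → c = a ∨ c = b := by
    intro c hc
    have : c ∈ C₁.neighborSet v := hc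
    rw [hset] at this
    simpa using this
  obtain ⟨p, hp, hpu⟩ := hu v a ha.adj_sub
  obtain ⟨q, hq, hqu⟩ := hu v b hb.adj_sub
  refine ⟨p, q, ?_, ?_⟩
  · rintro rfl
    rcases (hF p).2 v a b hp hq hab with ⟨-, h2⟩ | ⟨h1, -⟩
    · exact h.not_both hb h2
    · exact h.not_both ha h1
  · intro j
    constructor
    · intro hj
      obtain ⟨c, hc1, hc2⟩ := exists_adj₁ hF hj
      rcases honly c hc2 with rfl | rfl
      · left; exact hpu j hc1
      · right; exact hqu j hc1
    · rintro (rfl | rfl)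
      · exact hp.fst_mem
      · exact hq.fst_mem

/-- The intersection graph is 3-edge-connected. -/
lemma meet_three [Finite V] (h3 : IsThreeConnected H) (hF : ∀ j, IsAlternating C₁ C₂ (F j))
    (hu : ∀ u v, H.Adj u v → ∃! j, (F j).Adj u v) (S : Set ι) (hS : S.Nonempty)
    (hS' : Sᶜ.Nonempty) : 3 ≤ (meet (fun j => (F j).verts) S Sᶜ).ncard := by
  by_contra hlt
  set X := meet (fun j => (F j).verts) S Sᶜ with hX
  have hX2 : X.ncard ≤ 2 := by omega
  have hc := h3.2 X hX2
  have hpick : ∀ j, ∃ a ∈ (F j).verts, a ∉ X := by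
    intro j
    by_contra hcon
    push Not at hcon
    have h4 := Set.ncard_le_ncard (show (F j).verts ⊆ X from hcon) (Set.toFinite _)
    have h5 := three_le_circuit (hF j).1
    omega
  obtain ⟨s, hs⟩ := hS
  obtain ⟨t, ht⟩ := hS'
  obtain ⟨a, ha, haX⟩ := hpick s
  obtain ⟨b, hb, hbX⟩ := hpick t
  have key : ∀ u w : (Xᶜ : Set V), (H.induce Xᶜ).Reachable u w →
      (∀ j, (u : V) ∈ (F j).verts → j ∈ S) → ∀ j, (w : V) ∈ (F j).verts → j ∈ S := by
    rintro u w ⟨p⟩
    induction p with
    | nil => exact fun h => h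
    | @cons u v w huv p ih =>
      intro hP
      apply ih
      intro j hj
      by_contra hjS
      have huv' : H.Adj u v := huv
      obtain ⟨t, ht, -⟩ := hu u v huv'
      have htS : t ∈ S := hP t ht.fst_mem
      exact v.2 ⟨⟨t, htS, ht.snd_mem⟩, j, hjS, hj⟩
  have hPa : ∀ j, a ∈ (F j).verts → j ∈ S := by
    intro j hj
    by_contra hjS
    exact haX ⟨⟨s, hs, ha⟩, j, hjS, hj⟩
  exact ht (key ⟨a, haX⟩ ⟨b, hbX⟩ (hc.preconnected _ _) hPa t hb)

/-- Deleting `z` does not increase the number of components if all vertices other than `z` that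
are joined in `G` are joined in `G - z`. -/
lemma not_isCutVertex [Finite V] (G : SimpleGraph V) (z : V)
    (h : ∀ a b, a ≠ z → b ≠ z → G.Reachable a b → (without G z).Reachable a b) :
    ¬ IsCutVertex G z := by
  unfold IsCutVertex
  rw [not_lt]
  have hlift : ∀ a b : V, (without G z).Reachable a b → ∀ (ha : a ≠ z) (hb : b ≠ z),
      (G.induce {z}ᶜ).Reachable ⟨a, ha⟩ ⟨b, hb⟩ := by
    rintro a b ⟨p⟩
    induction p with
    | nil => intro _ _; exact SimpleGraph.Reachable.refl _
    | @cons u v w huv p ih =>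
      intro ha hb
      have hv : v ≠ z := huv.2.2
      refine SimpleGraph.Reachable.trans (SimpleGraph.Adj.reachable ?_) (ih hv hb)
      exact huv.1
  let φ : (G.induce {z}ᶜ).ConnectedComponent → G.ConnectedComponent :=
    SimpleGraph.ConnectedComponent.map (SimpleGraph.Embedding.induce _).toHom
  apply Nat.card_le_card_of_injective φ
  intro c d
  induction c using SimpleGraph.ConnectedComponent.ind with
  | _ a =>
  induction d using SimpleGraph.ConnectedComponent.ind with
  | _ b =>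
  intro hab
  have hab' : G.connectedComponentMk (a : V) = G.connectedComponentMk (b : V) := hab
  have h1 : G.Reachable (a : V) (b : V) := SimpleGraph.ConnectedComponent.exact hab'
  have h2 := h a b a.2 b.2 h1
  exact SimpleGraph.ConnectedComponent.sound (hlift a b h2 a.2 b.2)

/-- **Theorem A.** If `H` is 3-connected, then every decomposition into alternating circuits
contains a circuit whose deletion leaves no cut-vertex. -/
theorem exists_removable [Finite V] [Finite ι] [Nonempty ι] (h : IsHamiltonPair H C₁ C₂)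
    (h3 : IsThreeConnected H) (hF : ∀ j, IsAlternating C₁ C₂ (F j))
    (hu : ∀ u v, H.Adj u v → ∃! j, (F j).Adj u v) :
    ∃ i, ∀ z, ¬ IsCutVertex (H.deleteEdges (F i).edgeSet) z := by
  obtain ⟨i, hi⟩ := exists_good (fun j => (F j).verts) (fun S hS hS' => meet_three h3 hF hu S hS hS')
  refine ⟨i, fun z => ?_⟩
  apply not_isCutVertex
  set G := H.deleteEdges (F i).edgeSet with hG
  have hGadj : ∀ u v, G.Adj u v ↔ ∃ t, t ≠ i ∧ (F t).Adj u v := by
    intro u v
    rw [hG, SimpleGraph.deleteEdges_adj, SimpleGraph.Subgraph.mem_edgeSet]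
    constructor
    · rintro ⟨h1, h2⟩
      obtain ⟨t, ht, -⟩ := hu u v h1
      exact ⟨t, fun h => h2 (h ▸ ht), ht⟩
    · rintro ⟨t, ht, htu⟩
      refine ⟨htu.adj_sub, fun h2 => ht ?_⟩
      exact (hu u v htu.adj_sub).unique htu h2
  obtain ⟨p, q, hpq, hz⟩ := two_members h hF hu z
  -- members other than `i` stay connected
  have hA : ∀ t, t ≠ i → ∀ x y, x ∈ (F t).verts → y ∈ (F t).verts → x ≠ z → y ≠ z →
      (without G z).Reachable x y := fun t ht x y hx hy hxz hyz =>
    circuit_without (hF t).1 G (fun a b hab => (hGadj a b).2 ⟨t, ht, hab⟩) z x y hx hy hxz hyz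
  have hne : ∀ t, ∃ x ∈ (F t).verts, x ≠ z := by
    intro t
    by_contra hcon
    push Not at hcon
    have h4 := Set.ncard_le_ncard (show (F t).verts ⊆ {z} from hcon) (Set.toFinite _)
    have h5 := three_le_circuit (hF t).1
    rw [Set.ncard_singleton] at h4
    omega
  let R : ι → ι → Prop := fun t s => ∀ x ∈ (F t).verts, ∀ y ∈ (F s).verts, x ≠ z → y ≠ z →
    (without G z).Reachable x y
  have hRtrans : ∀ t s r, R t s → R s r → R t r := by
    intro t s r h1 h2 x hx y hy hxz hyz
    obtain ⟨w, hw, hwz⟩ := hne s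
    exact (h1 x hx w hw hxz hwz).trans (h2 w hw y hy hwz hyz)
  have hRshare : ∀ t s, t ≠ i → s ≠ i → ∀ v, v ≠ z → v ∈ (F t).verts → v ∈ (F s).verts →
      R t s := by
    intro t s ht hs v hvz hvt hvs x hx y hy hxz hyz
    exact (hA t ht x v hx hvt hxz hvz).trans (hA s hs v y hvs hy hvz hyz)
  have hB : ∀ s t, s ≠ i → t ≠ i → z ∈ (F s).verts → z ∈ (F t).verts → R s t := by
    intro s t hs ht hzs hzt
    by_cases hst : s = t
    · subst hst
      exact fun x hx y hy hxz hyz => hA s hs x y hx hy hxz hyz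
    by_contra hR
    apply hi {r | r ≠ i ∧ R s r} {r | r ≠ i ∧ ¬ R s r}
    refine ⟨⟨s, hs, fun x hx y hy hxz hyz => hA s hs x y hx hy hxz hyz⟩, ⟨t, ht, hR⟩, ?_,
      fun h => h.1 rfl, fun h => h.1 rfl, ?_, ?_⟩
    · rw [Set.disjoint_left]
      intro r h1 h2
      exact h2.2 h1.2
    · intro r
      by_cases h1 : r = i
      · exact Or.inl h1
      · by_cases h2 : R s r
        · exact Or.inr (Or.inl ⟨h1, h2⟩)
        · exact Or.inr (Or.inr ⟨h1, h2⟩)
    · rw [Set.ncard_eq_one]
      refine ⟨z, ?_⟩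
      ext v
      rw [Set.mem_singleton_iff]
      constructor
      · rintro ⟨⟨r, hr, hvr⟩, r', hr', hvr'⟩
        by_contra hvz
        exact hr'.2 (hRtrans _ _ _ hr.2 (hRshare r r' hr.1 hr'.1 v hvz hvr hvr'))
      · rintro rfl
        exact ⟨⟨s, ⟨hs, fun x hx y hy hxz hyz => hA s hs x y hx hy hxz hyz⟩, hzs⟩,
          t, ⟨ht, hR⟩, hzt⟩
  -- walks
  intro a b haz hbz hab
  have key : ∀ b, G.Reachable a b → (b ≠ z → (without G z).Reachable a b) ∧
      (b = z → ∃ t, t ≠ i ∧ z ∈ (F t).verts ∧ ∀ x ∈ (F t).verts, x ≠ z →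
        (without G z).Reachable a x) := by
    intro b hb
    rw [SimpleGraph.reachable_iff_reflTransGen] at hb
    induction hb with
    | refl => exact ⟨fun _ => SimpleGraph.Reachable.refl _, fun h => absurd h haz⟩
    | @tail b c _ hbc ih =>
      obtain ⟨t, ht, hbc'⟩ := (hGadj b c).1 hbc
      constructor
      · intro hcz
        by_cases hbz : b = z
        · subst hbz
          obtain ⟨s, hs, hzs, hreach⟩ := ih.2 rfl
          obtain ⟨x, hx, hxz⟩ := hne s
          exact (hreach x hx hxz).trans (hB s t hs ht hzs hbc'.fst_mem x hx c hbc'.snd_mem hxz hcz)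
        · exact (ih.1 hbz).trans (SimpleGraph.Adj.reachable ⟨hbc, hbz, hcz⟩)
      · intro hcz
        subst hcz
        have hbz : b ≠ c := hbc'.ne
        refine ⟨t, ht, hbc'.snd_mem, fun x hx hxz => ?_⟩
        exact (ih.1 hbz).trans (hA t ht b x hbc'.fst_mem hx hbz hxz)
  exact (key b hab).1 hbz

end Goddyn
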